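import Pool.Agent.U552.CN.Res3

/-!
# MP_05dcdc_nt: pairs of squarefree congruent numbers at a fixed distance, in short intervals

**Theorem.** Let `s ≥ 1` and let `j` be odd. There is a `D` such that for all large `X` the interval
`[X, X + D X ^ (8/9)]` contains at least `X ^ (2/9)` numbers `n` for which `n ≡ n + 1792 s⁶ ≡ j` modulo `8` are both
squarefree congruent numbers. By Tunnell's theorem both numbers satisfy `2 |A_n| = |B_n|`, so each of these pairs consists
of two cases of Q1, also in the classes `1` and `3` modulo `8`, where the condition is a real one.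

The numbers are the values of cubic polynomials. With `S = s²` let `a b = 2` and

  `f(x) = (a x + 3 S) (x² - 2 b² S²)`,  `g(x) = (a x - S) ((x + b S)² - 2 b² S²)`.

Both curves `y² = f(x)` and `y² = g(x)` are isogenous to `y² = x³ - x` (they are the two curves `32a3` and `32a4`, twisted
by squares), so all positive values `n = f(x)` and `n = g(x)` are congruent numbers, and `g(x) = f(x) + 7 b² s⁶`: the
difference is CONSTANT. It remains to find in a window of `C R²` consecutive elements `x` of a progression, `x` of the size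
`R³`, a positive proportion for which both values are squarefree. The linear factors are treated as usual. For the
quadratic factors `x² - N`, `N = 2 b² S²`: primes `p ≤ C R²` have at most two classes modulo `p²`; for larger `p` one has
`x² - N = m p²` with `m ≤ C R²`, and since `2` is not a square the equation `x² - m p² = N` of Pell has at most `N²`
solutions with `x` in `[U, 2 U]` for each `m`. Library: `Pool.Agent.U552.CN` (`pell_count`, `sieve3`, `pairs_short`).

The starting results `AlmostPrimeIntervals`, `OddResidueClasses`, `ManyInIntervals`, `EveryOddDivisor` produce single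
congruent numbers, `Clusters` has several ones in an interval of length about `X ^ (1/3)`, and `BoundedClusters`
(helper334) has sets with some fixed pattern, up to `X`; here the distance is prescribed and the pairs lie in every short
interval.
-/

set_option autoImplicit false

namespace Pool.Agent.Results.MP_05dcdc_nt.PairsAtFixedDistance

open Pool.Agent.U552.CN (run_short odd_sq even_sq fz gz Tri tri_sq)

/-- `n` is the area of a right triangle with rational sides. -/
def IsCongruent (n : ℕ) : Prop :=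
  ∃ a b c : ℚ, 0 < a ∧ 0 < b ∧ 0 < c ∧ a ^ 2 + b ^ 2 = c ^ 2 ∧ (n : ℚ) = a * b / 2

/-- For all large `X` there are at least `X ^ (2/9)` numbers `n` in `[X, X + D X ^ (8/9)]` (`D` a constant) such that `n`
has the residue `i` modulo `8`, `n + h` has the residue `j` modulo `8`, and `n` and `n + h` are squarefree and
congruent. -/
def ManyPairs (h i j : ℕ) : Prop :=
  ∃ D X₀ : ℝ, ∀ X : ℝ, X₀ ≤ X → X ^ (2 / 9 : ℝ) ≤
    (({n : ℕ | X ≤ n ∧ (n : ℝ) ≤ X + D * X ^ (8 / 9 : ℝ) ∧ n % 8 = i ∧ (n + h) % 8 = j ∧ Squarefree n ∧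
      Squarefree (n + h) ∧ IsCongruent n ∧ IsCongruent (n + h)}.ncard : ℕ) : ℝ)

theorem many (a b s ρ i j h : ℕ) (hab : a = 2 ∧ b = 1 ∨ a = 1 ∧ b = 2) (hs : 1 ≤ s) (hρ : ρ < 8)
    (hf : fz a b (s ^ 2 % 8) ρ % 8 = i) (hg : gz a b (s ^ 2 % 8) ρ % 8 = j) (hi : i % 4 ≠ 0) (hj : j % 4 ≠ 0)
    (hh : h = 7 * b ^ 2 * s ^ 6) : ManyPairs h i j := by
  obtain ⟨D, X₀, H⟩ := run_short a b s ρ i j hab hs hρ hf hg hi hj
  subst hh
  exact ⟨D, X₀, fun X hX => H X hX _ fun n h1 h2 h3 h4 h5 h6 => ⟨h1, h2, h3, h4, h5, h6⟩⟩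

/-- **Pairs of odd squarefree congruent numbers at a fixed distance.** -/
theorem result (s : ℕ) (hs : 1 ≤ s) (j : ℕ) (hj : Odd j) : ManyPairs (1792 * s ^ 6) (j % 8) (j % 8) := by
  have hj8 : j % 8 = 1 ∨ j % 8 = 3 ∨ j % 8 = 5 ∨ j % 8 = 7 := by
    rw [Nat.odd_iff] at hj
    omega
  rcases even_sq s with h | h
  · rcases hj8 with h' | h' | h' | h' <;> rw [h']
    · refine many 1 2 (2 * s) 1 1 1 _ (Or.inr ⟨rfl, rfl⟩) (by omega) (by norm_num) ?_ ?_ (by norm_num) (by norm_num)
        (by ring) <;> rw [h] <;> norm_num [fz, gz]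
    · refine many 1 2 (2 * s) 3 3 3 _ (Or.inr ⟨rfl, rfl⟩) (by omega) (by norm_num) ?_ ?_ (by norm_num) (by norm_num)
        (by ring) <;> rw [h] <;> norm_num [fz, gz]
    · refine many 1 2 (2 * s) 5 5 5 _ (Or.inr ⟨rfl, rfl⟩) (by omega) (by norm_num) ?_ ?_ (by norm_num) (by norm_num)
        (by ring) <;> rw [h] <;> norm_num [fz, gz]
    · refine many 1 2 (2 * s) 7 7 7 _ (Or.inr ⟨rfl, rfl⟩) (by omega) (by norm_num) ?_ ?_ (by norm_num) (by norm_num)
        (by ring) <;> rw [h] <;> norm_num [fz, gz]
  · rcases hj8 with h' | h' | h' | h' <;> rw [h']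
    · refine many 1 2 (2 * s) 5 1 1 _ (Or.inr ⟨rfl, rfl⟩) (by omega) (by norm_num) ?_ ?_ (by norm_num) (by norm_num)
        (by ring) <;> rw [h] <;> norm_num [fz, gz]
    · refine many 1 2 (2 * s) 7 3 3 _ (Or.inr ⟨rfl, rfl⟩) (by omega) (by norm_num) ?_ ?_ (by norm_num) (by norm_num)
        (by ring) <;> rw [h] <;> norm_num [fz, gz]
    · refine many 1 2 (2 * s) 1 5 5 _ (Or.inr ⟨rfl, rfl⟩) (by omega) (by norm_num) ?_ ?_ (by norm_num) (by norm_num)
        (by ring) <;> rw [h] <;> norm_num [fz, gz]
    · refine many 1 2 (2 * s) 3 7 7 _ (Or.inr ⟨rfl, rfl⟩) (by omega) (by norm_num) ?_ ?_ (by norm_num) (by norm_num)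
        (by ring) <;> rw [h] <;> norm_num [fz, gz]

end Pool.Agent.Results.MP_05dcdc_nt.PairsAtFixedDistance
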